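import Pool.Agent.X328.FP.Stm

/-!
# Project GM: strong uniform boundedness for rational maps with a multiplier of large height

The map is `p / q` with fixed points `0` and `∞` (`p (0) = 0`, `deg q < deg p = d`), the multiplier of
`0` is `λ = p.coeff 1 / q.coeff 0`. Statements of the jobs.
-/

set_option autoImplicit false

namespace Pool.Agent.X328.GM

open Finset Polynomial Pool.Agent.W277.UB Pool.Agent.W277.UH
open Pool.Agent.X328.FP (wr vl hQ)

universe u v w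

noncomputable section

/-- the disk around `a` of the points with `ord (x - a) ≥ s` -/
def Dk {k K : Type*} [Field k] [Field K] [Algebra k K] (Q : PlaceData k K) (v : Q.Pl) (a : K)
    (s : ℤ) : Set K := {x | x = a ∨ s ≤ Q.ord v (x - a)}

/-- the number of roots of `F` in `D` (with multiplicities) -/
def nr {K : Type*} [Field K] (F : K[X]) (D : Set K) : ℕ := by
  classical
  exact (F.roots.filter (· ∈ D)).card

/-- **CNT**: the number of critical points in a disk. Proof: after `X ↦ X + a` let `a = 0`. Say that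
`Dom F n m` if `F.coeff n ≠ 0`, `ord (F.coeff n) + n s = m`, and for all `i` with `F.coeff i ≠ 0`:
`ord (F.coeff i) + i s ≥ m`, with `>` for `i > n`. (1) `Dom F n m` and `z = 0` or `ord z ≥ s` give
`Dom (F * (X - C z)) (n + 1) (m + s)`; `ord z < s` gives `Dom (F * (X - C z)) n (m + ord z)`. So
`Dom F (nr F D) m` for some `m` if `F ≠ 0` splits. (2) `Dom F n m`, `Dom F n' m'` give `n = n'`.
(3) `(wr p q).coeff j = ∑_{i + l = j + 1} (i - l) p.coeff i q.coeff l`, so if `Dom p n m`, `Dom q n' m'`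
and `n ≠ n'` then `Dom (wr p q) (n + n' - 1) (m + m' - s)` as `n - n' ≠ 0` has order `0`. -/
def S_CNT : Prop := ∀ (k : Type v) (K : Type u) [Field k] [CharZero k] [Field K] [Algebra k K]
  (Q : PlaceData.{w} k K) (v : Q.Pl) (p q : K[X]) (a : K) (s : ℤ), p ≠ 0 → q ≠ 0 → wr p q ≠ 0 →
  p.Splits → q.Splits → (wr p q).Splits → nr p (Dk Q v a s) ≠ nr q (Dk Q v a s) →
  nr (wr p q) (Dk Q v a s) + 1 = nr p (Dk Q v a s) + nr q (Dk Q v a s)

/-- **GLOC**: the attracting fixed point `0` attracts a critical point, at a linear rate. -/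
def S_GLOC : Prop := ∀ (k : Type v) (K : Type u) [Field k] [CharZero k] [Field K] [Algebra k K]
  (Q : PlaceData.{w} k K) (v : Q.Pl) (p q : K[X]), IsCoprime p q → p.coeff 0 = 0 →
  p.coeff 1 ≠ 0 → q.natDegree < p.natDegree → p.Splits → q.Splits → (wr p q).Splits →
  0 < Q.ord v (p.coeff 1 / q.coeff 0) → ∀ z₁ : K, z₁ ≠ 0 → p.eval z₁ = 0 →
  ∃ c : K, (wr p q).eval c = 0 ∧
    ∀ m : ℕ, q.eval ((vl p q)^[m] c) ≠ 0 ∧ (vl p q)^[m + 1] c ≠ 0 ∧
      ((m : ℤ) + 1) * Q.ord v (p.coeff 1 / q.coeff 0) + Q.ord v z₁ ≤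
        Q.ord v ((vl p q)^[m + 1] c)

/-- **STEPG**: the height of a value (the proof of `Pool.Agent.X263.FP.t_STEP`, for general `p`, `q`;
`low` needs `resultant q p d d ≠ 0` only, which is true if `max (deg p) (deg q) = d`). -/
def S_STEPG : Prop := ∀ (k : Type v) (K : Type u) [Field k] [CharZero k] [Field K] [Algebra k K]
  (Q : PlaceData.{w} k K) (d : ℕ), 1 ≤ d → ∀ p q : K[X], IsCoprime p q →
  max p.natDegree q.natDegree = d → ∀ (e : Q.Pl → ℤ) (S : Finset Q.Pl), (∀ v, 0 ≤ e v) →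
  (∀ v, v ∉ S → e v = 0) → (∀ v i, Q.G v (-e v) (p.coeff i)) →
  (∀ v i, Q.G v (-e v) (q.coeff i)) → ∀ x : K, q.eval x ≠ 0 →
    (d : ℤ) * hQ Q x - (2 * d - 1) * ∑ v ∈ S, Q.wt v * e v ≤ hQ Q (vl p q x)

/-- the sum of the heights of the coefficients -/
def HH {k K : Type*} [Field k] [Field K] [Algebra k K] (Q : PlaceData k K) (p q : K[X])
    (d : ℕ) : ℤ := ∑ i ∈ range (d + 1), (hQ Q (p.coeff i) + hQ Q (q.coeff i))

/-- **GLG**: a critical point of large height (from GLOC, HQ and STEPG). Proof: `p` has a root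
`z₁ ≠ 0` (`X` divides `p` once), and STEPG with `e v = ∑_i (pole (p.coeff i) + pole (q.coeff i))`, `x = z₁`
gives `d hQ (z₁) ≤ (2 d - 1) HH + hQ (0)`, so `hQ (z₁) ≤ 2 HH`. Let `λ = p.coeff 1 / q.coeff 0`,
`Z` the places with `ord λ > 0`, and for `v ∈ Z` let `c v` be from GLOC. For `n ≥ 1`, HQ gives
`∑_{v ∈ Z, c v = c} wt v * (n * ord λ + ord z₁) ≤ hQ (f^n (c))`; the sum over the at most `2 d` roots
`c` of `wr p q` of the left side is at least `n * hQ (λ) - hQ (z₁)`. For `n = (4 d ^ 2 + 2) E` this is at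
least `4 d ^ 2 HH`, so `hQ (f^n (c)) ≥ 2 d HH` for some `c` with a `v ∈ Z`, and by STEPG
`hQ (f^(n + m) (c)) ≥ d ^ m (hQ (f^n (c)) - (2 d - 1) HH) ≥ d ^ m HH`. -/
def S_GLG : Prop := ∀ (k : Type v) (K : Type u) [Field k] [CharZero k] [Field K] [Algebra k K]
  (Q : PlaceData.{w} k K) (d : ℕ), 2 ≤ d → ∀ p q : K[X], IsCoprime p q → p.natDegree = d →
  q.natDegree < d → p.coeff 0 = 0 → ∀ E : ℕ, 0 < HH Q p q d →
  HH Q p q d ≤ E * hQ Q (p.coeff 1 / q.coeff 0) → p.Splits → q.Splits → (wr p q).Splits →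
  ∃ c : K, (wr p q).eval c = 0 ∧ (∀ m : ℕ, q.eval ((vl p q)^[m] c) ≠ 0) ∧
    ∀ m : ℕ, (d : ℤ) ^ m * HH Q p q d ≤ hQ Q ((vl p q)^[(4 * d ^ 2 + 2) * E + m] c)

end

end Pool.Agent.X328.GM
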