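import Mathlib
import Pool.Agent.X328.GM.Stm

/-! # The order of a rational function on the boundary of a disk -/

set_option autoImplicit false

namespace Pool.Agent.X328.GM

open Finset Polynomial Pool.Agent.W277.UB Pool.Agent.W277.UB.PlaceData
open Pool.Agent.X328.FP (wr vl hQ)

noncomputable section

variable {k K : Type*} [Field k] [Field K] [Algebra k K] {Q : PlaceData k K} {v : Q.Pl}

lemma ord_sub_comm (x y : K) (h : x ≠ y) : Q.ord v (x - y) = Q.ord v (y - x) := by
  rw [← ord_neg (sub_ne_zero.2 h), neg_sub]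

lemma mem_Dk {x a : K} {s : ℤ} : x ∈ Dk Q v a s ↔ x = a ∨ s ≤ Q.ord v (x - a) := Iff.rfl

lemma self_mem (a : K) (s : ℤ) : a ∈ Dk Q v a s := Or.inl rfl

lemma Dk_symm {x a : K} {s : ℤ} (h : x ∈ Dk Q v a s) : a ∈ Dk Q v x s := by
  rcases h with h | h
  · exact Or.inl h.symm
  · by_cases hx : x = a
    · exact Or.inl hx.symm
    · right
      rwa [← ord_sub_comm x a hx]

lemma Dk_trans {x y a : K} {s : ℤ} (hx : x ∈ Dk Q v a s) (hy : y ∈ Dk Q v x s) :
    y ∈ Dk Q v a s := by
  by_cases hya : y = a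
  · exact Or.inl hya
  by_cases hxa : x = a
  · rwa [hxa] at hy
  by_cases hyx : y = x
  · rwa [hyx]
  have h1 : s ≤ Q.ord v (x - a) := hx.resolve_left hxa
  have h2 : s ≤ Q.ord v (y - x) := hy.resolve_left hyx
  right
  have h3 : y - a = (y - x) + (x - a) := by ring
  rw [h3]
  exact Q.ord_add v _ _ s (sub_ne_zero.2 hyx) (sub_ne_zero.2 hxa)
    (by rw [← h3]; exact sub_ne_zero.2 hya) h2 h1

lemma Dk_eq {x a : K} {s : ℤ} (h : x ∈ Dk Q v a s) : Dk Q v x s = Dk Q v a s := by
  ext y
  exact ⟨fun hy => Dk_trans h hy, fun hy => Dk_trans (Dk_symm h) hy⟩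

lemma Dk_mono {x a : K} {s s' : ℤ} (hs : s' ≤ s) (h : x ∈ Dk Q v a s) : x ∈ Dk Q v a s' :=
  h.imp id fun h => hs.trans h

variable (Q v)

/-- the order of `X - z` on the boundary of the disk -/
def mu (a : K) (s : ℤ) (z : K) : ℤ := by
  classical
  exact if z = a then s else min s (Q.ord v (z - a))

variable {Q v}

lemma mu_mem {a z : K} {s : ℤ} (h : z ∈ Dk Q v a s) : mu Q v a s z = s := by
  unfold mu
  split_ifs with h1
  · rfl
  · exact min_eq_left (h.resolve_left h1)

lemma mu_not_mem {a z : K} {s : ℤ} (h : z ∉ Dk Q v a s) : mu Q v a s z = Q.ord v (z - a) := by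
  have h1 : z ≠ a := fun h' => h (Or.inl h')
  have h2 : Q.ord v (z - a) < s := by
    by_contra hcon
    exact h (Or.inr (not_lt.1 hcon))
  unfold mu
  rw [if_neg h1]
  exact min_eq_right h2.le

lemma mu_succ (a z : K) (s : ℤ) [Decidable (z ∈ Dk Q v a s)] :
    mu Q v a s z = mu Q v a (s - 1) z + if z ∈ Dk Q v a s then 1 else 0 := by
  classical
  by_cases h : z ∈ Dk Q v a s
  · rw [if_pos h, mu_mem h, mu_mem (Dk_mono (by omega) h)]
    ring
  · rw [if_neg h, mu_not_mem h]
    have h1 : z ≠ a := fun h' => h (Or.inl h')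
    have h2 : Q.ord v (z - a) < s := by
      by_contra hcon
      exact h (Or.inr (not_lt.1 hcon))
    unfold mu
    rw [if_neg h1, min_eq_right (by omega)]
    ring

lemma mu_congr {a x : K} {s : ℤ} (h : x ∈ Dk Q v a s) (z : K) : mu Q v x s z = mu Q v a s z := by
  have hD := Dk_eq h
  by_cases hz : z ∈ Dk Q v a s
  · rw [mu_mem hz, mu_mem (by rw [hD]; exact hz)]
  · have hz' : z ∉ Dk Q v x s := by rw [hD]; exact hz
    rw [mu_not_mem hz, mu_not_mem hz']
    have hza : z ≠ a := fun h' => hz (Or.inl h')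
    have hzx : z ≠ x := fun h' => hz' (Or.inl h')
    by_cases hxa : x = a
    · rw [hxa]
    have h1 : s ≤ Q.ord v (x - a) := h.resolve_left hxa
    have h2 : Q.ord v (z - a) < s := by
      by_contra hcon
      exact hz (Or.inr (not_lt.1 hcon))
    have h3 : Q.ord v (z - x) < s := by
      by_contra hcon
      exact hz' (Or.inr (not_lt.1 hcon))
    apply le_antisymm
    · have h4 : z - a = (z - x) + (x - a) := by ring
      rw [h4]
      exact Q.ord_add v _ _ _ (sub_ne_zero.2 hzx) (sub_ne_zero.2 hxa)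
        (by rw [← h4]; exact sub_ne_zero.2 hza) le_rfl (by omega)
    · have h4 : z - x = (z - a) + (a - x) := by ring
      rw [h4]
      have h5 : Q.ord v (a - x) = Q.ord v (x - a) := ord_sub_comm a x (Ne.symm hxa)
      exact Q.ord_add v _ _ _ (sub_ne_zero.2 hza) (sub_ne_zero.2 (Ne.symm hxa))
        (by rw [← h4]; exact sub_ne_zero.2 hzx) le_rfl (by omega)

variable (Q v)

/-- the order of `p / q` on the boundary of the disk -/
def phi (p q : K[X]) (a : K) (s : ℤ) : ℤ :=
  Q.ord v p.leadingCoeff - Q.ord v q.leadingCoeff + (p.roots.map (mu Q v a s)).sum -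
    (q.roots.map (mu Q v a s)).sum

variable {Q v}

lemma sum_mu_succ (R : Multiset K) (a : K) (s : ℤ) [DecidablePred (· ∈ Dk Q v a s)] :
    (R.map (mu Q v a s)).sum = (R.map (mu Q v a (s - 1))).sum +
      ((R.filter (· ∈ Dk Q v a s)).card : ℤ) := by
  induction R using Multiset.induction_on with
  | empty => simp
  | cons z R ih =>
    rw [Multiset.map_cons, Multiset.sum_cons, Multiset.map_cons, Multiset.sum_cons, ih,
      mu_succ a z s]
    by_cases h : z ∈ Dk Q v a s
    · rw [if_pos h, Multiset.filter_cons_of_pos _ h, Multiset.card_cons]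
      push_cast
      ring
    · rw [if_neg h, Multiset.filter_cons_of_neg _ h]
      ring

lemma phi_succ (p q : K[X]) (a : K) (s : ℤ) :
    phi Q v p q a s = phi Q v p q a (s - 1) + nr p (Dk Q v a s) - nr q (Dk Q v a s) := by
  classical
  unfold phi nr
  rw [sum_mu_succ p.roots a s, sum_mu_succ q.roots a s]
  ring

lemma phi_congr (p q : K[X]) {a x : K} {s : ℤ} (h : x ∈ Dk Q v a s) :
    phi Q v p q x s = phi Q v p q a s := by
  unfold phi
  rw [Multiset.map_congr rfl fun z _ => mu_congr h z, Multiset.map_congr rfl fun z _ => mu_congr h z]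

lemma ord_multiset (R : Multiset K) (x : K) (hx : x ∉ R) :
    (R.map fun z => x - z).prod ≠ 0 ∧
      Q.ord v (R.map fun z => x - z).prod = (R.map fun z => Q.ord v (z - x)).sum := by
  induction R using Multiset.induction_on with
  | empty => simp [ord_one]
  | cons z R ih =>
    rw [Multiset.mem_cons, not_or] at hx
    obtain ⟨h1, h2⟩ := ih hx.2
    have h3 : x - z ≠ 0 := sub_ne_zero.2 hx.1
    rw [Multiset.map_cons, Multiset.prod_cons, Multiset.map_cons, Multiset.sum_cons]
    refine ⟨mul_ne_zero h3 h1, ?_⟩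
    rw [Q.ord_mul v _ _ h3 h1, h2, ord_sub_comm x z hx.1]

lemma ord_eval (p : K[X]) (hp : p ≠ 0) (hs : p.Splits) (x : K) (hx : p.eval x ≠ 0) :
    Q.ord v (p.eval x) = Q.ord v p.leadingCoeff + (p.roots.map fun z => Q.ord v (z - x)).sum := by
  have hx' : x ∉ p.roots := by
    rw [mem_roots hp]
    exact hx
  obtain ⟨h1, h2⟩ := ord_multiset (Q := Q) (v := v) p.roots x hx'
  have h3 : p.eval x = p.leadingCoeff * (p.roots.map fun z => x - z).prod := by
    conv_lhs => rw [hs.eq_prod_roots]
    rw [eval_mul, eval_C, eval_multiset_prod, Multiset.map_map]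
    simp
  rw [h3, Q.ord_mul v _ _ (leadingCoeff_ne_zero.2 hp) h1, h2]

/-- an upper bound for finitely many integers -/
lemma ex_ub (R : Multiset K) (f : K → ℤ) : ∃ M : ℤ, ∀ z ∈ R, f z ≤ M := by
  classical
  obtain ⟨M, hM⟩ := Finset.exists_le (R.toFinset.image f)
  exact ⟨M, fun z hz => hM _ (Finset.mem_image_of_mem f (Multiset.mem_toFinset.2 hz))⟩

lemma phi_val (p q : K[X]) (hp0 : p ≠ 0) (hq0 : q ≠ 0) (hp : p.Splits) (hq : q.Splits) (x : K)
    (hpx : p.eval x ≠ 0) (hqx : q.eval x ≠ 0) :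
    ∃ s₀ : ℤ, ∀ s, s₀ ≤ s → phi Q v p q x s = Q.ord v (vl p q x) := by
  obtain ⟨M, hM⟩ := ex_ub p.roots fun z => Q.ord v (z - x)
  obtain ⟨M', hM'⟩ := ex_ub q.roots fun z => Q.ord v (z - x)
  refine ⟨max M M', fun s hs => ?_⟩
  have h1 : ∀ z ∈ p.roots, mu Q v x s z = Q.ord v (z - x) := by
    intro z hz
    have h2 : z ≠ x := by
      rintro rfl
      exact hpx ((mem_roots hp0).1 hz)
    unfold mu
    rw [if_neg h2]
    exact min_eq_right ((hM z hz).trans ((le_max_left _ _).trans hs))
  have h1' : ∀ z ∈ q.roots, mu Q v x s z = Q.ord v (z - x) := by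
    intro z hz
    have h2 : z ≠ x := by
      rintro rfl
      exact hqx ((mem_roots hq0).1 hz)
    unfold mu
    rw [if_neg h2]
    exact min_eq_right ((hM' z hz).trans ((le_max_right _ _).trans hs))
  unfold phi vl
  rw [ord_div hpx hqx, ord_eval p hp0 hp x hpx, ord_eval q hq0 hq x hqx,
    Multiset.map_congr rfl h1, Multiset.map_congr rfl h1']
  ring

/-- counting in holes -/
lemma hole (R : Multiset K) (D : Set K) (W : Finset (Set K)) (hsub : ∀ w ∈ W, w ⊆ D)
    (hdis : ∀ w ∈ W, ∀ w' ∈ W, ∀ x, x ∈ w → x ∈ w' → w = w')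
    (hcov : ∀ x ∈ R, x ∈ D → ∃ w ∈ W, x ∈ w) [DecidablePred (· ∈ D)]
    [∀ w : Set K, DecidablePred (· ∈ w)] :
    (R.filter (· ∈ D)).card = ∑ w ∈ W, (R.filter (· ∈ w)).card := by
  classical
  induction R using Multiset.induction_on with
  | empty => simp
  | cons z R ih =>
    have ih' := ih fun x hx => hcov x (Multiset.mem_cons_of_mem hx)
    have h1 : ∀ w : Set K, ((z ::ₘ R).filter (· ∈ w)).card =
        (R.filter (· ∈ w)).card + if z ∈ w then 1 else 0 := by
      intro w
      by_cases h : z ∈ w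
      · rw [Multiset.filter_cons_of_pos _ h, Multiset.card_cons, if_pos h]
      · rw [Multiset.filter_cons_of_neg _ h, if_neg h, add_zero]
    have h2 : ((z ::ₘ R).filter (· ∈ D)).card =
        (R.filter (· ∈ D)).card + if z ∈ D then 1 else 0 := by
      by_cases h : z ∈ D
      · rw [Multiset.filter_cons_of_pos _ h, Multiset.card_cons, if_pos h]
      · rw [Multiset.filter_cons_of_neg _ h, if_neg h, add_zero]
    rw [h2, ih', Finset.sum_congr rfl fun w _ => h1 w, Finset.sum_add_distrib]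
    congr 1
    by_cases h : z ∈ D
    · obtain ⟨w, hw, hzw⟩ := hcov z (Multiset.mem_cons_self z R) h
      rw [if_pos h, Finset.sum_eq_single w, if_pos hzw]
      · intro w' hw' hne
        rw [if_neg fun hz => hne (hdis w' hw' w hw z hz hzw)]
      · intro h'
        exact absurd hw h'
    · rw [if_neg h, Finset.sum_eq_zero]
      intro w hw
      rw [if_neg fun hz => h (hsub w hw hz)]

end

end Pool.Agent.X328.GM
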