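import Mathlib
import Pool.Agent.X328.GM.Mu
import Pool.Agent.Y706.CH.FinM

/-! # GLOC: the attracting fixed point attracts a critical point -/

set_option autoImplicit false

namespace Pool.Agent.X328.GM

open Finset Polynomial Pool.Agent.W277.UB Pool.Agent.W277.UB.PlaceData
open Pool.Agent.X328.FP (wr vl hQ)

universe u v w

section

variable {k K : Type*} [Field k] [Field K] [Algebra k K] {Q : PlaceData k K} {v : Q.Pl}

lemma nr_pos {F : K[X]} {D : Set K} (hF : F ≠ 0) {x : K} (hx : F.eval x = 0) (hD : x ∈ D) :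
    1 ≤ nr F D := by
  classical
  unfold nr
  rw [Nat.one_le_iff_ne_zero, Ne, Multiset.card_eq_zero]
  intro h
  have : x ∈ F.roots.filter (· ∈ D) := Multiset.mem_filter.2 ⟨(mem_roots hF).2 hx, hD⟩
  rw [h] at this
  exact Multiset.notMem_zero _ this

lemma nr_zero {F : K[X]} {D : Set K} (h : ∀ x, F.eval x = 0 → x ∉ D) : nr F D = 0 := by
  classical
  unfold nr
  rw [Multiset.card_eq_zero, Multiset.eq_zero_iff_forall_notMem]
  intro x hx
  rw [Multiset.mem_filter] at hx
  by_cases hF : F = 0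
  · rw [hF, roots_zero] at hx
    exact Multiset.notMem_zero _ hx.1
  · exact h x ((mem_roots hF).1 hx.1) hx.2

lemma exists_of_nr {F : K[X]} {D : Set K} (h : 0 < nr F D) : ∃ x, F.eval x = 0 ∧ x ∈ D := by
  by_contra hcon
  push Not at hcon
  rw [nr_zero hcon] at h
  exact absurd h (lt_irrefl _)

lemma nr_all {F : K[X]} {D : Set K} (hs : F.Splits) (hF : F ≠ 0) (h : ∀ x, F.eval x = 0 → x ∈ D) :
    nr F D = F.natDegree := by
  classical
  unfold nr
  rw [Multiset.filter_eq_self.2 fun x hx => h x ((mem_roots hF).1 hx)]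
  exact hs.natDegree_eq_card_roots.symm

lemma nr_hole (F : K[X]) (D : Set K) (W : Finset (Set K)) (hsub : ∀ w ∈ W, w ⊆ D)
    (hdis : ∀ w ∈ W, ∀ w' ∈ W, ∀ x, x ∈ w → x ∈ w' → w = w')
    (hcov : ∀ x, F.eval x = 0 → x ∈ D → ∃ w ∈ W, x ∈ w) :
    nr F D = ∑ w ∈ W, nr F w := by
  classical
  unfold nr
  apply hole F.roots D W hsub hdis
  intro x hx hD
  by_cases hF : F = 0
  · rw [hF, roots_zero] at hx
    exact absurd hx (Multiset.notMem_zero _)
  · exact hcov x ((mem_roots hF).1 hx) hD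

/-- the order near `0` -/
lemma phi_zero (p q : K[X]) (hq0 : q.eval 0 ≠ 0) (hp0 : p.coeff 0 = 0)
    (hp1 : p.coeff 1 ≠ 0) (hps : p.Splits) (hqs : q.Splits) (s : ℤ)
    (hs : ∀ z, z ≠ 0 → p.eval z = 0 ∨ q.eval z = 0 → Q.ord v z ≤ s) :
    phi Q v p q 0 s = Q.ord v (p.coeff 1 / q.coeff 0) + s := by
  have hpne : p ≠ 0 := by
    rintro rfl
    exact hp1 (coeff_zero 1)
  have hqne : q ≠ 0 := by
    rintro rfl
    exact hq0 eval_zero
  obtain ⟨p₁, hp₁⟩ : X ∣ p := X_dvd_iff.2 hp0
  have hp₁ne : p₁ ≠ 0 := by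
    rintro rfl
    exact hpne (by rw [hp₁, mul_zero])
  have h1 : p₁.eval 0 = p.coeff 1 := by
    rw [hp₁, coeff_X_mul, coeff_zero_eq_eval_zero]
  have h1' : p₁.eval 0 ≠ 0 := by rwa [h1]
  have hroots : p.roots = 0 ::ₘ p₁.roots := by
    rw [hp₁, roots_mul (by rw [← hp₁]; exact hpne), roots_X, Multiset.singleton_add]
  have hlc : p.leadingCoeff = p₁.leadingCoeff := by
    rw [hp₁, leadingCoeff_mul, leadingCoeff_X, one_mul]
  have hp₁s : p₁.Splits := hps.of_dvd hpne ⟨X, by rw [hp₁, mul_comm]⟩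
  have h2 := ord_eval (Q := Q) (v := v) p₁ hp₁ne hp₁s 0 h1'
  have h3 := ord_eval (Q := Q) (v := v) q hqne hqs 0 hq0
  have h4 : ∀ z ∈ p₁.roots, mu Q v 0 s z = Q.ord v (z - 0) := by
    intro z hz
    have hz0 : z ≠ 0 := by
      rintro rfl
      exact h1' ((mem_roots hp₁ne).1 hz)
    unfold mu
    rw [if_neg hz0, sub_zero]
    exact min_eq_right (hs z hz0 (Or.inl (by
      rw [hp₁, eval_mul, show p₁.eval z = 0 from (mem_roots hp₁ne).1 hz, mul_zero])))
  have h4' : ∀ z ∈ q.roots, mu Q v 0 s z = Q.ord v (z - 0) := by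
    intro z hz
    have hz0 : z ≠ 0 := by
      rintro rfl
      exact hq0 ((mem_roots hqne).1 hz)
    unfold mu
    rw [if_neg hz0, sub_zero]
    exact min_eq_right (hs z hz0 (Or.inr ((mem_roots hqne).1 hz)))
  unfold phi
  rw [hroots, Multiset.map_cons, Multiset.sum_cons, Multiset.map_congr rfl h4,
    Multiset.map_congr rfl h4', hlc, mu_mem (self_mem 0 s), coeff_zero_eq_eval_zero,
    ord_div hp1 hq0, ← h1, h2, h3]
  ring

end

theorem gloc (hCNT : S_CNT.{u, v, w}) : S_GLOC.{u, v, w} := by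
  classical
  intro k K _ _ _ _ Q v p q hco hp0 hp1 hdeg hps hqs hws hlam z₁ hz₁ hpz₁
  have cK : CharZero K := charZero_of_injective_algebraMap (algebraMap k K).injective
  have hpne : p ≠ 0 := by
    rintro rfl
    exact hp1 (coeff_zero 1)
  have hnocommon : ∀ x, p.eval x = 0 → q.eval x = 0 → False := by
    intro x h1 h2
    obtain ⟨a, b, hab⟩ := hco
    have h3 := congrArg (fun P : K[X] => P.eval x) hab
    simp only [eval_add, eval_mul, eval_one, h1, h2, mul_zero, add_zero] at h3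
    exact zero_ne_one h3
  have hp00 : p.eval 0 = 0 := by rw [← coeff_zero_eq_eval_zero, hp0]
  have hq00 : q.eval 0 ≠ 0 := fun h => hnocommon 0 hp00 h
  have hqne : q ≠ 0 := by
    rintro rfl
    exact hq00 eval_zero
  have hW0 : wr p q ≠ 0 := Pool.Agent.Y706.CH.wr_ne p q hco p.natDegree (by omega)
    (max_eq_left hdeg.le)
  set lam := p.coeff 1 / q.coeff 0 with hlamdef
  -- the first break
  set R₀ : Finset K := ((p.roots + q.roots).toFinset.erase 0) with hR₀
  have hmemR₀ : ∀ z, z ∈ R₀ ↔ z ≠ 0 ∧ (p.eval z = 0 ∨ q.eval z = 0) := by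
    intro z
    rw [hR₀, Finset.mem_erase, Multiset.mem_toFinset, Multiset.mem_add, mem_roots hpne,
      mem_roots hqne]
    rfl
  obtain ⟨ρ₀, hρ₀, hmax⟩ := Finset.exists_max_image R₀ (fun z => Q.ord v z)
    ⟨z₁, (hmemR₀ z₁).2 ⟨hz₁, Or.inl hpz₁⟩⟩
  set σ := Q.ord v ρ₀ with hσ
  have hle : ∀ z, z ≠ 0 → p.eval z = 0 ∨ q.eval z = 0 → Q.ord v z ≤ σ := fun z h1 h2 =>
    hmax z ((hmemR₀ z).2 ⟨h1, h2⟩)
  have hρ₀' := (hmemR₀ ρ₀).1 hρ₀
  set T := Q.ord v lam + σ with hT
  have hphi0 : ∀ s, σ ≤ s → phi Q v p q 0 s = Q.ord v lam + s := fun s hs =>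
    phi_zero p q hq00 hp0 hp1 hps hqs s fun z h1 h2 => (hle z h1 h2).trans hs
  -- the outer radius
  obtain ⟨t, ⟨ht1, ht2⟩, ht3⟩ : ∃ t, (t ≤ σ ∧ phi Q v p q 0 t < T) ∧
      ∀ s, (s ≤ σ ∧ phi Q v p q 0 s < T) → s ≤ t := by
    apply Int.exists_greatest_of_bdd
    · exact ⟨σ, fun z hz => hz.1⟩
    · obtain ⟨M, hM⟩ := ex_ub (p.roots + q.roots) fun z => -Q.ord v z
      have h1 : ∀ s, s ≤ -M → ∀ z, p.eval z = 0 ∨ q.eval z = 0 → z ∈ Dk Q v 0 s := by
        intro s hs z hz
        right
        have h2 := hM z (Multiset.mem_add.2 (by rwa [mem_roots hpne, mem_roots hqne]))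
        rw [sub_zero]
        omega
      have h2 : ∀ s, s ≤ -M → phi Q v p q 0 (s - 1) ≤ phi Q v p q 0 s - 1 := by
        intro s hs
        have h3 := phi_succ (Q := Q) (v := v) p q 0 s
        rw [nr_all hps hpne fun z hz => h1 s hs z (Or.inl hz),
          nr_all hqs hqne fun z hz => h1 s hs z (Or.inr hz)] at h3
        omega
      set s₀ := min (-M) σ with hs₀
      have h3 : ∀ n : ℕ, phi Q v p q 0 (s₀ - n) ≤ phi Q v p q 0 s₀ - n := by
        intro n
        induction n with
        | zero => simp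
        | succ n ih =>
          have h4 := h2 (s₀ - n) (by omega)
          have h5 : s₀ - ((n + 1 : ℕ) : ℤ) = s₀ - n - 1 := by push_cast; ring
          rw [h5]
          push_cast
          omega
      refine ⟨s₀ - ((phi Q v p q 0 s₀ - T).toNat + 1 : ℕ), ?_, ?_⟩
      · have : s₀ ≤ σ := min_le_right _ _
        omega
      · have h4 := h3 ((phi Q v p q 0 s₀ - T).toNat + 1)
        have h5 := Int.self_le_toNat (phi Q v p q 0 s₀ - T)
        push_cast at h4 ⊢
        omega
  have htσ : t < σ := by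
    rcases ht1.lt_or_eq with h | h
    · exact h
    · rw [h, hphi0 σ le_rfl] at ht2
      exact absurd ht2 (lt_irrefl _)
  have hphiT : ∀ s, t < s → T ≤ phi Q v p q 0 s := by
    intro s hs
    rcases le_total s σ with h | h
    · by_contra hcon
      have := ht3 s ⟨h, not_le.1 hcon⟩
      omega
    · rw [hphi0 s h]
      omega
  set D : Set K := Dk Q v 0 (t + 1) with hD
  have hDne : nr p D ≠ nr q D := by
    have h1 := phi_succ (Q := Q) (v := v) p q 0 (t + 1)
    have h2 := hphiT (t + 1) (by omega)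
    rw [add_sub_cancel_right] at h1
    intro h
    rw [← hD, h] at h1
    omega
  have hcntD := hCNT k K Q v p q 0 (t + 1) hpne hqne hW0 hps hqs hws hDne
  rw [← hD] at hcntD
  -- membership in `D`
  have hmemD : ∀ x, x ≠ 0 → (x ∈ D ↔ t < Q.ord v x) := by
    intro x hx
    rw [hD, mem_Dk, sub_zero]
    constructor
    · intro h
      have := h.resolve_left hx
      omega
    · intro h
      right
      omega
  -- the value at the radius of `x`
  have hphix : ∀ x, x ≠ 0 → x ∈ D → T ≤ phi Q v p q x (Q.ord v x) := by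
    intro x hx hxD
    have h1 : x ∈ Dk Q v 0 (Q.ord v x) := Or.inr (by rw [sub_zero])
    rw [phi_congr p q h1]
    exact hphiT _ ((hmemD x hx).1 hxD)
  -- the holes
  have hholes : ∀ b, q.eval b = 0 → b ∈ D → ∃ t', Q.ord v b < t' ∧ phi Q v p q b t' < T ∧
      ∀ s, Q.ord v b < s → s < t' → T ≤ phi Q v p q b s := by
    intro b hb hbD
    have hb0 : b ≠ 0 := by
      rintro rfl
      exact hq00 hb
    obtain ⟨t', ⟨h1, h2⟩, h3⟩ : ∃ t', (Q.ord v b < t' ∧ phi Q v p q b t' < T) ∧
        ∀ s, (Q.ord v b < s ∧ phi Q v p q b s < T) → t' ≤ s := by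
      apply Int.exists_least_of_bdd
      · exact ⟨Q.ord v b, fun z hz => hz.1.le⟩
      · obtain ⟨M, hM⟩ := ex_ub p.roots fun z => Q.ord v (z - b)
        have h1 : ∀ s, M < s → nr p (Dk Q v b s) = 0 := by
          intro s hs
          apply nr_zero
          intro x hx hxD
          rcases hxD with h | h
          · rw [h] at hx
            exact hnocommon b hx hb
          · have := hM x ((mem_roots hpne).2 hx)
            omega
        have h2 : ∀ s, M < s → phi Q v p q b s ≤ phi Q v p q b (s - 1) - 1 := by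
          intro s hs
          have h3 := phi_succ (Q := Q) (v := v) p q b s
          have h4 := nr_pos hqne hb (self_mem (Q := Q) (v := v) b s)
          rw [h1 s hs] at h3
          push_cast at h3
          omega
        set s₀ := max M (Q.ord v b) with hs₀
        have h3 : ∀ n : ℕ, phi Q v p q b (s₀ + n) ≤ phi Q v p q b s₀ - n := by
          intro n
          induction n with
          | zero => simp
          | succ n ih =>
            have h4 := h2 (s₀ + n + 1) (by omega)
            rw [add_sub_cancel_right] at h4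
            have h5 : s₀ + ((n + 1 : ℕ) : ℤ) = s₀ + n + 1 := by push_cast; ring
            rw [h5]
            push_cast
            omega
        refine ⟨s₀ + ((phi Q v p q b s₀ - T).toNat + 1 : ℕ), ?_, ?_⟩
        · have : Q.ord v b ≤ s₀ := le_max_right _ _
          push_cast
          omega
        · have h4 := h3 ((phi Q v p q b s₀ - T).toNat + 1)
          have h5 := Int.self_le_toNat (phi Q v p q b s₀ - T)
          push_cast at h4 ⊢
          omega
    refine ⟨t', h1, h2, ?_⟩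
    intro s hs1 hs2
    by_contra hcon
    have := h3 s ⟨hs1, not_le.1 hcon⟩
    omega
  choose! tt htt1 htt2 htt3 using hholes
  set HB : K → Set K := fun b => Dk Q v b (tt b) with hHB
  -- elements of a hole of a pole have the same order
  have hsame : ∀ b, q.eval b = 0 → b ∈ D → ∀ x ∈ HB b, x ≠ 0 ∧ Q.ord v x = Q.ord v b := by
    intro b hb hbD x hx
    have hb0 : b ≠ 0 := by
      rintro rfl
      exact hq00 hb
    have h1 := htt1 b hb hbD
    have hx0 : x ≠ 0 := by
      rintro rfl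
      rcases hx with h | h
      · exact hb0 h.symm
      · rw [zero_sub, ord_neg hb0] at h
        omega
    refine ⟨hx0, ?_⟩
    rcases hx with h | h
    · rw [h]
    · by_cases hxb : x = b
      · rw [hxb]
      have h3 : x - b ≠ 0 := sub_ne_zero.2 hxb
      apply le_antisymm
      · by_contra hcon
        push Not at hcon
        have h4 : b = x + (-(x - b)) := by ring
        have h5 : Q.ord v b + 1 ≤ Q.ord v (x + (-(x - b))) :=
          Q.ord_add v _ _ _ hx0 (neg_ne_zero.2 h3) (by rw [← h4]; exact hb0) (by omega)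
            (by rw [ord_neg h3]; omega)
        rw [← h4] at h5
        omega
      · have h4 : x = (x - b) + b := by ring
        rw [h4]
        exact Q.ord_add v _ _ _ h3 hb0 (by rw [← h4]; exact hx0) (by omega) le_rfl
  have hHBD : ∀ b, q.eval b = 0 → b ∈ D → HB b ⊆ D := by
    intro b hb hbD x hx
    have hb0 : b ≠ 0 := by
      rintro rfl
      exact hq00 hb
    obtain ⟨h1, h2⟩ := hsame b hb hbD x hx
    rw [hmemD x h1, h2]
    exact (hmemD b hb0).1 hbD
  -- two holes of poles with a common point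
  have hdisB' : ∀ b b', q.eval b = 0 → b ∈ D → q.eval b' = 0 → b' ∈ D → ∀ x ∈ HB b, x ∈ HB b' →
      tt b ≤ tt b' → HB b = HB b' := by
    intro b b' hb hbD hb' hb'D x hx hx' htle
    have h1 : b' ∈ HB b := Dk_trans hx (Dk_mono htle (Dk_symm hx'))
    have h2 := (hsame b hb hbD b' h1).2
    have h3 : tt b' ≤ tt b := by
      by_contra hcon
      push Not at hcon
      have h4 := htt3 b' hb' hb'D (tt b) (by rw [h2]; exact htt1 b hb hbD) hcon
      rw [phi_congr p q h1] at h4
      exact absurd (htt2 b hb hbD) (not_lt.2 h4)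
    have h4 : tt b = tt b' := le_antisymm htle h3
    rw [hHB]
    simp only
    rw [← h4]
    exact (Dk_eq h1).symm
  have hdisB : ∀ b b', q.eval b = 0 → b ∈ D → q.eval b' = 0 → b' ∈ D → ∀ x ∈ HB b, x ∈ HB b' →
      HB b = HB b' := by
    intro b b' hb hbD hb' hb'D x hx hx'
    rcases le_total (tt b) (tt b') with h | h
    · exact hdisB' b b' hb hbD hb' hb'D x hx hx' h
    · exact (hdisB' b' b hb' hb'D hb hbD x hx' hx h).symm
  -- the values outside the holes
  have hval : ∀ c, c ∈ D → (∀ b, q.eval b = 0 → b ∈ D → c ∉ HB b) → p.eval c ≠ 0 →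
      q.eval c ≠ 0 ∧ T ≤ Q.ord v (vl p q c) := by
    intro c hcD hcH hpc
    have hqc : q.eval c ≠ 0 := fun h => hcH c h hcD (self_mem c _)
    refine ⟨hqc, ?_⟩
    by_contra hcon
    push Not at hcon
    have hc0 : c ≠ 0 := by
      rintro rfl
      exact hpc hp00
    obtain ⟨s₀, hs₀⟩ := phi_val (Q := Q) (v := v) p q hpne hqne hps hqs c hpc hqc
    obtain ⟨tc, ⟨h1, h2⟩, h3⟩ : ∃ t', (Q.ord v c < t' ∧ phi Q v p q c t' < T) ∧
        ∀ s, (Q.ord v c < s ∧ phi Q v p q c s < T) → t' ≤ s := by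
      apply Int.exists_least_of_bdd
      · exact ⟨Q.ord v c, fun z hz => hz.1.le⟩
      · refine ⟨max s₀ (Q.ord v c + 1), ?_, ?_⟩
        · exact lt_of_lt_of_le (lt_add_one _) (le_max_right _ _)
        · rw [hs₀ _ (le_max_left _ _)]
          exact hcon
    have h4 : T ≤ phi Q v p q c (tc - 1) := by
      rcases eq_or_lt_of_le (Int.add_one_le_of_lt h1) with h | h
      · have h5 : tc - 1 = Q.ord v c := by omega
        rw [h5]
        exact hphix c hc0 hcD
      · by_contra hcon'
        have := h3 (tc - 1) ⟨by omega, not_le.1 hcon'⟩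
        omega
    have h5 := phi_succ (Q := Q) (v := v) p q c tc
    have h6 : 0 < nr q (Dk Q v c tc) := by
      by_contra hcon'
      have : nr q (Dk Q v c tc) = 0 := by omega
      rw [this] at h5
      push_cast at h5
      omega
    obtain ⟨b, hb, hbc⟩ := exists_of_nr h6
    have hbc' : b ≠ c := by
      rintro rfl
      exact hqc hb
    have hb0 : b ≠ 0 := by
      rintro rfl
      exact hq00 hb
    have h7 : tc ≤ Q.ord v (b - c) := hbc.resolve_left hbc'
    have hbcs : b - c ≠ 0 := sub_ne_zero.2 hbc'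
    have h8 : Q.ord v b = Q.ord v c := by
      apply le_antisymm
      · by_contra hcon'
        push Not at hcon'
        have h9 : c = b + (-(b - c)) := by ring
        have h10 : Q.ord v c + 1 ≤ Q.ord v (b + (-(b - c))) :=
          Q.ord_add v _ _ _ hb0 (neg_ne_zero.2 hbcs) (by rw [← h9]; exact hc0) (by omega)
            (by rw [ord_neg hbcs]; omega)
        rw [← h9] at h10
        omega
      · have h9 : b = (b - c) + c := by ring
        rw [h9]
        exact Q.ord_add v _ _ _ hbcs hc0 (by rw [← h9]; exact hb0) (by omega) le_rfl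
    have hbD : b ∈ D := by
      rw [hmemD b hb0, h8]
      exact (hmemD c hc0).1 hcD
    have hmem : ∀ s, s ≤ tc → b ∈ Dk Q v c s := fun s hs => Dk_mono hs hbc
    have h9 : tt b ≤ tc := by
      by_contra hcon'
      push Not at hcon'
      have h10 := htt3 b hb hbD tc (by rw [h8]; exact h1) hcon'
      rw [phi_congr p q (hmem tc le_rfl)] at h10
      omega
    have h10 : tc ≤ tt b := by
      by_contra hcon'
      push Not at hcon'
      have h11 := htt2 b hb hbD
      rw [phi_congr p q (hmem (tt b) hcon'.le)] at h11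
      have := h3 (tt b) ⟨by have := htt1 b hb hbD; rw [h8] at this; exact this, h11⟩
      omega
    have h11 : tt b = tc := le_antisymm h9 h10
    apply hcH b hb hbD
    rw [hHB]
    simp only
    rw [h11]
    exact Dk_symm hbc
  -- a critical point
  obtain ⟨c, hwc, hcD, hcH, hpc⟩ : ∃ c, (wr p q).eval c = 0 ∧ c ∈ D ∧
      (∀ b, q.eval b = 0 → b ∈ D → c ∉ HB b) ∧ p.eval c ≠ 0 := by
    by_contra hcon
    push Not at hcon
    -- a large radius
    obtain ⟨S, hS⟩ : ∃ S : ℤ, t + 1 ≤ S ∧ (∀ b, q.eval b = 0 → tt b ≤ S) ∧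
        (∀ x y, p.eval x = 0 → (p.eval y = 0 ∨ q.eval y = 0) → Q.ord v (y - x) < S) := by
      obtain ⟨M₁, hM₁⟩ := ex_ub q.roots tt
      obtain ⟨M₂, hM₂⟩ := Finset.exists_le
        ((p.roots.toFinset ×ˢ (p.roots + q.roots).toFinset).image fun z => Q.ord v (z.2 - z.1))
      refine ⟨max (t + 1) (max M₁ (M₂ + 1)), le_max_left _ _, ?_, ?_⟩
      · intro b hb
        exact (hM₁ b ((mem_roots hqne).2 hb)).trans ((le_max_left _ _).trans (le_max_right _ _))
      · intro x y hx hy
        have h1 := hM₂ (Q.ord v (y - x)) (by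
          rw [Finset.mem_image]
          refine ⟨(x, y), ?_, rfl⟩
          rw [Finset.mem_product, Multiset.mem_toFinset, Multiset.mem_toFinset, Multiset.mem_add,
            mem_roots hpne, mem_roots hpne, mem_roots hqne]
          exact ⟨hx, hy⟩)
        exact lt_of_le_of_lt h1 (lt_of_lt_of_le (lt_add_one _)
          ((le_max_right _ _).trans (le_max_right _ _)))
    obtain ⟨hS1, hS2, hS3⟩ := hS
    set Bs : Finset K := (q.roots.toFinset).filter (· ∈ D) with hBs
    have hmB : ∀ b, b ∈ Bs ↔ q.eval b = 0 ∧ b ∈ D := by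
      intro b
      rw [hBs, Finset.mem_filter, Multiset.mem_toFinset, mem_roots hqne]
      rfl
    set Zs : Finset K := (p.roots.toFinset).filter fun z => z ∈ D ∧
      ∀ b, q.eval b = 0 → b ∈ D → z ∉ HB b with hZs
    have hmZ : ∀ z, z ∈ Zs ↔ p.eval z = 0 ∧ z ∈ D ∧ ∀ b, q.eval b = 0 → b ∈ D → z ∉ HB b := by
      intro b
      rw [hZs, Finset.mem_filter, Multiset.mem_toFinset, mem_roots hpne]
      rfl
    set W : Finset (Set K) := Bs.image HB ∪ Zs.image fun z => Dk Q v z S with hW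
    have hmW : ∀ w, w ∈ W ↔ (∃ b, (q.eval b = 0 ∧ b ∈ D) ∧ HB b = w) ∨
        ∃ z, (p.eval z = 0 ∧ z ∈ D ∧ ∀ b, q.eval b = 0 → b ∈ D → z ∉ HB b) ∧ Dk Q v z S = w := by
      intro w
      rw [hW, Finset.mem_union, Finset.mem_image, Finset.mem_image]
      simp only [hmB, hmZ]
    have hsub : ∀ w ∈ W, w ⊆ D := by
      intro w hw
      rcases (hmW w).1 hw with ⟨b, hb, rfl⟩ | ⟨z, hz, rfl⟩
      · exact hHBD b hb.1 hb.2
      · intro x hx
        rw [hD]
        exact Dk_trans hz.2.1 (Dk_mono hS1 hx)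
    have hBZ : ∀ b, q.eval b = 0 → b ∈ D → ∀ z, (∀ b, q.eval b = 0 → b ∈ D → z ∉ HB b) →
        ∀ x, x ∈ HB b → x ∈ Dk Q v z S → False := by
      intro b hb hbD z hz x hx hxz
      exact hz b hb hbD (Dk_trans hx (Dk_mono (hS2 b hb) (Dk_symm hxz)))
    have hdis : ∀ w ∈ W, ∀ w' ∈ W, ∀ x, x ∈ w → x ∈ w' → w = w' := by
      intro w hw w' hw' x hx hx'
      rcases (hmW w).1 hw with ⟨b, hb, rfl⟩ | ⟨z, hz, rfl⟩
      · rcases (hmW w').1 hw' with ⟨b', hb', rfl⟩ | ⟨z', hz', rfl⟩
        · exact hdisB b b' hb.1 hb.2 hb'.1 hb'.2 x hx hx'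
        · exact absurd (hBZ b hb.1 hb.2 z' hz'.2.2 x hx hx') id
      · rcases (hmW w').1 hw' with ⟨b', hb', rfl⟩ | ⟨z', hz', rfl⟩
        · exact absurd (hBZ b' hb'.1 hb'.2 z hz.2.2 x hx' hx) id
        · have h1 : z' ∈ Dk Q v z S := Dk_trans hx (Dk_symm hx')
          rcases h1 with h1 | h1
          · rw [h1]
          · exact absurd (hS3 z z' hz.1 (Or.inl hz'.1)) (not_lt.2 h1)
    have hcovq : ∀ x, q.eval x = 0 → x ∈ D → ∃ w ∈ W, x ∈ w := by
      intro x hx hxD
      exact ⟨HB x, (hmW _).2 (Or.inl ⟨x, ⟨hx, hxD⟩, rfl⟩), self_mem x _⟩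
    have hcovp : ∀ x, p.eval x = 0 → x ∈ D → ∃ w ∈ W, x ∈ w := by
      intro x hx hxD
      by_cases h : ∃ b, (q.eval b = 0 ∧ b ∈ D) ∧ x ∈ HB b
      · obtain ⟨b, hb, hxb⟩ := h
        exact ⟨HB b, (hmW _).2 (Or.inl ⟨b, hb, rfl⟩), hxb⟩
      · push Not at h
        exact ⟨Dk Q v x S, (hmW _).2 (Or.inr ⟨x, ⟨hx, hxD, fun b h1 h2 => h b ⟨h1, h2⟩⟩, rfl⟩),
          self_mem x _⟩
    have hcovw : ∀ x, (wr p q).eval x = 0 → x ∈ D → ∃ w ∈ W, x ∈ w := by
      intro x hx hxD
      by_cases h : ∃ b, (q.eval b = 0 ∧ b ∈ D) ∧ x ∈ HB b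
      · obtain ⟨b, hb, hxb⟩ := h
        exact ⟨HB b, (hmW _).2 (Or.inl ⟨b, hb, rfl⟩), hxb⟩
      · push Not at h
        exact hcovp x (hcon x hx hxD fun b h1 h2 => h b ⟨h1, h2⟩) hxD
    have hcW : ∀ w ∈ W, nr (wr p q) w + 1 = nr p w + nr q w := by
      intro w hw
      rcases (hmW w).1 hw with ⟨b, ⟨hb, hbD⟩, rfl⟩ | ⟨z, hz, rfl⟩
      · apply hCNT k K Q v p q b (tt b) hpne hqne hW0 hps hqs hws
        have h1 := phi_succ (Q := Q) (v := v) p q b (tt b)
        have h2 := htt2 b hb hbD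
        have h3 := htt1 b hb hbD
        have hb0 : b ≠ 0 := by
          rintro rfl
          exact hq00 hb
        have h4 : T ≤ phi Q v p q b (tt b - 1) := by
          rcases eq_or_lt_of_le (Int.add_one_le_of_lt h3) with h | h
          · have h5 : tt b - 1 = Q.ord v b := by omega
            rw [h5]
            exact hphix b hb0 hbD
          · exact htt3 b hb hbD _ (by omega) (by omega)
        intro h
        rw [h] at h1
        omega
      · apply hCNT k K Q v p q z S hpne hqne hW0 hps hqs hws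
        have h1 : nr q (Dk Q v z S) = 0 := by
          apply nr_zero
          intro x hx hxD
          rcases hxD with h | h
          · rw [h] at hx
            exact hnocommon z hz.1 hx
          · exact absurd (hS3 z x hz.1 (Or.inr hx)) (not_lt.2 h)
        have h2 := nr_pos hpne hz.1 (self_mem (Q := Q) (v := v) z S)
        omega
    have e1 := nr_hole p D W hsub hdis hcovp
    have e2 := nr_hole q D W hsub hdis hcovq
    have e3 := nr_hole (wr p q) D W hsub hdis hcovw
    have e4 : ∑ w ∈ W, nr (wr p q) w + W.card = ∑ w ∈ W, nr p w + ∑ w ∈ W, nr q w := by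
      rw [← Finset.sum_add_distrib, ← Finset.sum_congr rfl hcW, Finset.sum_add_distrib]
      simp
    have e5 : W.card = 1 := by omega
    obtain ⟨w₀, hw₀⟩ := Finset.card_eq_one.1 e5
    have h0H : ∀ b, q.eval b = 0 → b ∈ D → (0 : K) ∉ HB b := fun b hb hbD h =>
      (hsame b hb hbD 0 h).1 rfl
    have h0D : (0 : K) ∈ D := self_mem 0 _
    have h1 : Dk Q v 0 S ∈ W := (hmW _).2 (Or.inr ⟨0, ⟨hp00, h0D, h0H⟩, rfl⟩)
    have hρD : ρ₀ ∈ D := (hmemD ρ₀ hρ₀'.1).2 htσ
    have h2 : ∀ w ∈ W, w = Dk Q v 0 S := by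
      intro w hw
      rw [hw₀, Finset.mem_singleton] at h1 hw
      rw [h1, hw]
    obtain ⟨w, hw, hρw⟩ : ∃ w ∈ W, ρ₀ ∈ w := by
      rcases hρ₀'.2 with h | h
      · exact hcovp ρ₀ h hρD
      · exact hcovq ρ₀ h hρD
    rw [h2 w hw] at hρw
    rcases hρw with h | h
    · exact hρ₀'.1 h
    · exact absurd (hS3 0 ρ₀ hp00 hρ₀'.2) (not_lt.2 h)
  obtain ⟨hqc, hTc⟩ := hval c hcD hcH hpc
  -- linearization
  have hlin : ∀ x, x ≠ 0 → σ < Q.ord v x → q.eval x ≠ 0 ∧ vl p q x ≠ 0 ∧
      Q.ord v (vl p q x) = Q.ord v lam + Q.ord v x := by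
    intro x hx hxσ
    have hpx : p.eval x ≠ 0 := fun h => absurd (hle x hx (Or.inl h)) (not_le.2 hxσ)
    have hqx : q.eval x ≠ 0 := fun h => absurd (hle x hx (Or.inr h)) (not_le.2 hxσ)
    refine ⟨hqx, div_ne_zero hpx hqx, ?_⟩
    have hno : ∀ s, Q.ord v x < s → ∀ z, p.eval z = 0 ∨ q.eval z = 0 → z ∉ Dk Q v x s := by
      intro s hs z hz hzD
      rcases hzD with h | h
      · rw [h] at hz
        rcases hz with h' | h'
        · exact hpx h'
        · exact hqx h'
      · by_cases hz0 : z = 0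
        · rw [hz0, zero_sub, ord_neg hx] at h
          omega
        · have h1 := hle z hz0 hz
          have h2 : z - x ≠ 0 := by
            intro h'
            rw [sub_eq_zero.1 h'] at h1
            omega
          have h3 : z = (z - x) + x := by ring
          have h4 : Q.ord v x ≤ Q.ord v ((z - x) + x) :=
            Q.ord_add v _ _ _ h2 hx (by rw [← h3]; exact hz0) (by omega) le_rfl
          rw [← h3] at h4
          omega
    have hconst : ∀ n : ℕ, phi Q v p q x (Q.ord v x + n) = phi Q v p q x (Q.ord v x) := by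
      intro n
      induction n with
      | zero => simp
      | succ n ih =>
        have h1 := phi_succ (Q := Q) (v := v) p q x (Q.ord v x + n + 1)
        have h6 : Q.ord v x + n + 1 - 1 = Q.ord v x + n := by ring
        rw [nr_zero fun z hz => hno _ (by omega) z (Or.inl hz),
          nr_zero fun z hz => hno _ (by omega) z (Or.inr hz), h6, ih] at h1
        have h5 : Q.ord v x + ((n + 1 : ℕ) : ℤ) = Q.ord v x + n + 1 := by push_cast; ring
        rw [h5, h1]
        simp
    obtain ⟨s₀, hs₀⟩ := phi_val (Q := Q) (v := v) p q hpne hqne hps hqs x hpx hqx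
    have h1 := hs₀ (Q.ord v x + ((s₀ - Q.ord v x).toNat : ℕ)) (by
      have := Int.self_le_toNat (s₀ - Q.ord v x)
      omega)
    rw [hconst] at h1
    have h2 : x ∈ Dk Q v 0 (Q.ord v x) := Or.inr (by rw [sub_zero])
    rw [← h1, phi_congr p q h2, hphi0 _ hxσ.le]
  have hvc : vl p q c ≠ 0 := div_ne_zero hpc hqc
  have hiter : ∀ m : ℕ, (vl p q)^[m + 1] c ≠ 0 ∧
      ((m : ℤ) + 1) * Q.ord v lam + σ ≤ Q.ord v ((vl p q)^[m + 1] c) := by
    intro m
    induction m with
    | zero =>
      refine ⟨hvc, ?_⟩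
      simp only [Nat.cast_zero, zero_add, one_mul, Function.iterate_one]
      exact hTc
    | succ m ih =>
      have h1 : σ < Q.ord v ((vl p q)^[m + 1] c) := by
        refine lt_of_lt_of_le ?_ ih.2
        nlinarith
      obtain ⟨h2, h3, h4⟩ := hlin _ ih.1 h1
      rw [Function.iterate_succ_apply']
      refine ⟨h3, ?_⟩
      rw [h4]
      push_cast
      have h5 := ih.2
      linarith
  refine ⟨c, hwc, fun m => ⟨?_, (hiter m).1, ?_⟩⟩
  · cases m with
    | zero => exact hqc
    | succ m =>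
      have h1 : σ < Q.ord v ((vl p q)^[m + 1] c) := by
        refine lt_of_lt_of_le ?_ (hiter m).2
        nlinarith
      exact (hlin _ (hiter m).1 h1).1
  · have h1 := (hiter m).2
    have h2 := hle z₁ hz₁ (Or.inl hpz₁)
    rw [hlamdef] at h1 ⊢
    linarith

end Pool.Agent.X328.GM
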