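import Mathlib
import Pool.Agent.X328.GM.Stm
import Pool.Agent.X328.FP.Lch
import Pool.Agent.Y195.CH.AFC

/-! # Large critical height, from GLG -/

set_option autoImplicit false

namespace Pool.Agent.X328.GM

open Finset Polynomial Pool.Agent.W277.UB Pool.Agent.W277.UB.PlaceData Pool.Agent.W277.UH
open Pool.Agent.Y706.CH (hgt S_PD S_HT S_KF S_FDA S_HTA)
open Pool.Agent.X328.FP (wr vl hQ iter_rat le_ls pole_fin hQ_supp hQ_nonneg)

universe u v w

theorem lch2 (hGLG : S_GLG.{u, u, u}) (hPD : S_PD.{u, u}) (hHT : S_HT.{u, v}) (hKF : S_KF.{u, v})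
    (hFDA : S_FDA.{u, u}) (hHTA : S_HTA.{u, v}) (d n' B₀ : ℕ) (hd : 2 ≤ d) :
    ∃ B : ℕ, ∀ (k : Type v) (M : Type u) [Field k] [CharZero k] [Field M] [Algebra k M] (t : M),
    Transcendental k t → FiniteDimensional (IntermediateField.adjoin k {t}) M →
    Module.finrank (IntermediateField.adjoin k {t}) M ≤ n' →
    ∀ p q : M[X], IsCoprime p q → p.natDegree = d → q.natDegree < d → p.coeff 0 = 0 →
    (∀ i ≤ d, hgt k (some (p.coeff i)) ≤ B₀ * hgt k (some (p.coeff 1 / q.coeff 0)) ∧
      hgt k (some (q.coeff i)) ≤ B₀ * hgt k (some (p.coeff 1 / q.coeff 0))) →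
    (∃ i ≤ d, 0 < hgt k (some (p.coeff i)) ∨ 0 < hgt k (some (q.coeff i))) →
    p.Splits → q.Splits → (wr p q).Splits →
    ∃ c : M, (wr p q).eval c = 0 ∧
      ∀ i, (hgt k (some (p.coeff i)) : ENNReal) ≤
          B * Filter.limsup (fun m => (hgt k ((ratP1 p q d)^[m] (some c)) : ENNReal) /
            (d : ENNReal) ^ m) Filter.atTop ∧
        (hgt k (some (q.coeff i)) : ENNReal) ≤
          B * Filter.limsup (fun m => (hgt k ((ratP1 p q d)^[m] (some c)) : ENNReal) /
            (d : ENNReal) ^ m) Filter.atTop := by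
  classical
  obtain ⟨Cf, hCf⟩ := hPD
  set C₀ : ℕ := (range (n' + 1)).sup Cf with hC₀
  set E : ℕ := (d + 1) * (2 * (C₀ * B₀ * n' * C₀)) with hE
  set n₀ : ℕ := (4 * d ^ 2 + 2) * E with hn₀
  refine ⟨n' * C₀ ^ 2 * d ^ n₀, ?_⟩
  intro k M _ _ _ _ t ht hfd hn p q hco hpd hqd hp0 hcoef hpos hs1 hs2 hs3
  obtain ⟨inst, hst, hfin, hle⟩ := Pool.Agent.W277.UD.exists_ratAlg k M t ht
  obtain ⟨hkf, hkfle⟩ := hKF k M t ht hfd
  have : CharZero (algebraicClosure k M) :=
    charZero_of_injective_algebraMap (algebraMap k (algebraicClosure k M)).injective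
  have : CharZero (RatFunc (algebraicClosure k M)) := charZero_of_injective_algebraMap
    (algebraMap (algebraicClosure k M) (RatFunc (algebraicClosure k M))).injective
  have halg : ∀ x : M, IsAlgebraic (algebraicClosure k M) x →
      ∃ c : (algebraicClosure k M), algebraMap (algebraicClosure k M) M c = x := by
    intro y hy
    have h1 : IsAlgebraic k y := hy.restrictScalars k
    exact ⟨⟨y, h1.isIntegral⟩, rfl⟩
  obtain ⟨t₁, ht₁, hfd₁⟩ := hFDA (algebraicClosure k M) M
  have hcomp : ∀ x : M, Module.finrank (IntermediateField.adjoin (algebraicClosure k M) {x}) M ≤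
      Module.finrank (IntermediateField.adjoin k {x}) M ∧
      Module.finrank (IntermediateField.adjoin k {x}) M ≤
        n' * Module.finrank (IntermediateField.adjoin (algebraicClosure k M) {x}) M := by
    intro x
    obtain ⟨h1, h2⟩ := hHT k (algebraicClosure k M) M M t₁ ht₁ hfd₁ x
    refine ⟨h1, h2.trans ?_⟩
    rw [Module.finrank_self, mul_one]
    exact Nat.mul_le_mul_right _ (hkfle.trans hn)
  obtain ⟨i₀, hi₀d, hi₀⟩ := hpos
  obtain ⟨y₀, hy₀, hy₀'⟩ : ∃ y₀ : M, 0 < hgt k (some y₀) ∧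
      (y₀ = p.coeff i₀ ∨ y₀ = q.coeff i₀) := by
    rcases hi₀ with h | h
    · exact ⟨_, h, Or.inl rfl⟩
    · exact ⟨_, h, Or.inr rfl⟩
  have hnc : ∀ c : algebraicClosure k M, y₀ ≠ algebraMap (algebraicClosure k M) M c := by
    intro c hc
    have h1 : IsAlgebraic k y₀ := by
      rw [hc]
      exact mem_algebraicClosure_iff.mp c.2
    have h2 : hgt k (some y₀) = 0 := (hHTA k M t ht).1 y₀ h1
    omega
  obtain ⟨x, -, hxgen, hxc⟩ := Pool.Agent.W277.UD.exists_gen (k := algebraicClosure k M)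
    (F := RatFunc (algebraicClosure k M)) (E := M) Set.univ (IntermediateField.adjoin_univ _ _)
    y₀ (Set.mem_univ _) hnc
  obtain ⟨Q, -, hQ2⟩ := hCf (algebraicClosure k M) M halg x hxgen hxc
  have hC : Cf (Module.finrank (RatFunc (algebraicClosure k M)) M) ≤ C₀ :=
    Finset.le_sup (f := Cf) (Finset.mem_range.2 (Nat.lt_succ_of_le (hle.trans hn)))
  have hh : ∀ y : M, hQ Q y ≤ C₀ * (hgt k (some y) : ℤ) ∧
      (hgt k (some y) : ℤ) ≤ n' * C₀ * hQ Q y := by
    intro y
    obtain ⟨S, hS⟩ := pole_fin Q {y}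
    have h1 := hQ2 y S (hS y (by simp))
    rw [hQ_supp Q y S (hS y (by simp))] at h1
    have h2 := hcomp y
    have h3 : hgt k (some y) = Module.finrank (IntermediateField.adjoin k {y}) M := rfl
    rw [h3]
    have h4 := hQ_nonneg Q y
    have hC' : (Cf (Module.finrank (RatFunc (algebraicClosure k M)) M) : ℤ) ≤ C₀ := by
      exact_mod_cast hC
    constructor
    · calc hQ Q y ≤ Cf (Module.finrank (RatFunc (algebraicClosure k M)) M) *
            Module.finrank (IntermediateField.adjoin (algebraicClosure k M) {y}) M := h1.1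
        _ ≤ C₀ * Module.finrank (IntermediateField.adjoin k {y}) M := by
            exact_mod_cast Nat.mul_le_mul hC h2.1
    · calc (Module.finrank (IntermediateField.adjoin k {y}) M : ℤ)
          ≤ n' * Module.finrank (IntermediateField.adjoin (algebraicClosure k M) {y}) M := by
            exact_mod_cast h2.2
        _ ≤ n' * (Cf (Module.finrank (RatFunc (algebraicClosure k M)) M) * hQ Q y) :=
            mul_le_mul_of_nonneg_left h1.2 (Int.natCast_nonneg _)
        _ ≤ n' * (C₀ * hQ Q y) :=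
            mul_le_mul_of_nonneg_left (mul_le_mul_of_nonneg_right hC' h4) (Int.natCast_nonneg _)
        _ = n' * C₀ * hQ Q y := by ring
  set lam := p.coeff 1 / q.coeff 0 with hlam
  have hbd : ∀ y : M, hgt k (some y) ≤ B₀ * hgt k (some lam) →
      hQ Q y ≤ (C₀ * B₀ * n' * C₀ : ℕ) * hQ Q lam := by
    intro y hy
    have hy' : (hgt k (some y) : ℤ) ≤ B₀ * hgt k (some lam) := by exact_mod_cast hy
    calc hQ Q y ≤ C₀ * (hgt k (some y) : ℤ) := (hh y).1
      _ ≤ C₀ * (B₀ * hgt k (some lam)) := mul_le_mul_of_nonneg_left hy' (by positivity)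
      _ ≤ C₀ * (B₀ * (n' * C₀ * hQ Q lam)) := by
          apply mul_le_mul_of_nonneg_left _ (by positivity)
          exact mul_le_mul_of_nonneg_left (hh lam).2 (by positivity)
      _ = (C₀ * B₀ * n' * C₀ : ℕ) * hQ Q lam := by push_cast; ring
  have hHHle : HH Q p q d ≤ E * hQ Q lam := by
    unfold HH
    refine (Finset.sum_le_card_nsmul _ _ (2 * ((C₀ * B₀ * n' * C₀ : ℕ) * hQ Q lam))
      fun i hi => ?_).trans ?_
    · have hi' : i ≤ d := Nat.lt_succ_iff.1 (Finset.mem_range.1 hi)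
      have h1 := hbd _ (hcoef i hi').1
      have h2 := hbd _ (hcoef i hi').2
      linarith
    · rw [card_range, hE, nsmul_eq_mul]
      push_cast
      exact le_of_eq (by ring)
  have hterm : ∀ i ≤ d, hQ Q (p.coeff i) ≤ HH Q p q d ∧ hQ Q (q.coeff i) ≤ HH Q p q d := by
    intro i hi
    have h1 : hQ Q (p.coeff i) + hQ Q (q.coeff i) ≤ HH Q p q d :=
      Finset.single_le_sum (f := fun i => hQ Q (p.coeff i) + hQ Q (q.coeff i))
        (fun i _ => add_nonneg (hQ_nonneg Q _) (hQ_nonneg Q _))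
        (Finset.mem_range.2 (Nat.lt_succ_of_le hi))
    have h2 := hQ_nonneg Q (p.coeff i)
    have h3 := hQ_nonneg Q (q.coeff i)
    constructor <;> linarith
  have hHHpos : 0 < HH Q p q d := by
    have h1 : 0 < hQ Q y₀ := by
      by_contra hcon
      have h2 := (hh y₀).2
      have h3 : hQ Q y₀ = 0 := le_antisymm (not_lt.1 hcon) (hQ_nonneg Q y₀)
      rw [h3, mul_zero] at h2
      omega
    rcases hy₀' with h | h
    · have := (hterm i₀ hi₀d).1
      rw [← h] at this
      omega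
    · have := (hterm i₀ hi₀d).2
      rw [← h] at this
      omega
  obtain ⟨c, hc1, hc2, hc3⟩ := hGLG (algebraicClosure k M) M Q d hd p q hco hpd hqd hp0 E hHHpos
    hHHle hs1 hs2 hs3
  refine ⟨c, hc1, ?_⟩
  have hmain : ∀ y : M, hQ Q y ≤ HH Q p q d → (hgt k (some y) : ENNReal) ≤
      (n' * C₀ ^ 2 * d ^ n₀ : ℕ) * Filter.limsup (fun m =>
        (hgt k ((ratP1 p q d)^[m] (some c)) : ENNReal) / (d : ENNReal) ^ m)
          Filter.atTop := by
    intro y hy
    apply le_ls _ _ (ENNReal.natCast_ne_top _) _ n₀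
    intro m hm
    obtain ⟨e, rfl⟩ := Nat.exists_eq_add_of_le hm
    rw [iter_rat _ _ _ _ hc2]
    have h1 := hc3 e
    have h2 := (hh ((vl p q)^[n₀ + e] c)).1
    have h3 := (hh y).2
    set h' := hgt k (some ((vl p q)^[n₀ + e] c)) with hh'
    have h4 : d ^ e * hgt k (some y) ≤ n' * C₀ ^ 2 * h' := by
      have h5 : (d ^ e * hgt k (some y) : ℤ) ≤ n' * C₀ ^ 2 * h' := by
        calc (d ^ e * hgt k (some y) : ℤ) ≤ d ^ e * (n' * C₀ * hQ Q y) :=
              mul_le_mul_of_nonneg_left h3 (by positivity)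
          _ ≤ d ^ e * (n' * C₀ * HH Q p q d) := by
              apply mul_le_mul_of_nonneg_left _ (by positivity)
              exact mul_le_mul_of_nonneg_left hy (by positivity)
          _ = n' * C₀ * (d ^ e * HH Q p q d) := by ring
          _ ≤ n' * C₀ * (C₀ * h') :=
              mul_le_mul_of_nonneg_left (h1.trans h2) (by positivity)
          _ = n' * C₀ ^ 2 * h' := by ring
      exact_mod_cast h5
    have h6 : hgt k (some y) * d ^ (n₀ + e) ≤ n' * C₀ ^ 2 * d ^ n₀ * h' := by
      calc hgt k (some y) * d ^ (n₀ + e) = d ^ n₀ * (d ^ e * hgt k (some y)) := by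
            rw [pow_add]
            ring
        _ ≤ d ^ n₀ * (n' * C₀ ^ 2 * h') := Nat.mul_le_mul_left _ h4
        _ = n' * C₀ ^ 2 * d ^ n₀ * h' := by ring
    rw [← mul_div_assoc, ENNReal.le_div_iff_mul_le]
    · exact_mod_cast h6
    · left
      exact pow_ne_zero _ (by exact_mod_cast (by omega : d ≠ 0))
    · left
      exact ENNReal.pow_ne_top (ENNReal.natCast_ne_top _)
  have hzero : hgt k (some (0 : M)) = 0 := (hHTA k M t ht).1 0 isAlgebraic_zero
  intro i
  by_cases hi : i ≤ d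
  · exact ⟨hmain _ (hterm i hi).1, hmain _ (hterm i hi).2⟩
  · rw [coeff_eq_zero_of_natDegree_lt (by omega), coeff_eq_zero_of_natDegree_lt (by omega), hzero]
    simp

end Pool.Agent.X328.GM
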