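import Mathlib
import Pool.Agent.X328.GM.Lch2
import Pool.Agent.X328.GM.Gloc
import Pool.Agent.X328.FP.Fin
import Pool.Agent.X319.GM.CNT
import Pool.Agent.X305.FP.STEPG
import Pool.Agent.X186.GM.GLG

/-! # Maps with a multiplier of large height have large critical height -/

set_option autoImplicit false

namespace Pool.Agent.X328.GM

open Finset Polynomial Pool.Agent.W277.UH
open Pool.Agent.X328.FP (wr map_wr natDegree_wr_le ext_split lch_of)
open Pool.Agent.Results.MP_9b502d_nt.LargeCriticalHeight (Conjugate mapHeight height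
  canonicalHeight HasLargeCriticalHeight IsCritical mapP1)

universe u v w

lemma exists_mapHeight (k : Type v) {M : Type u} [Field k] [Field M] [Algebra k M] (u w : M[X])
    (d : ℕ) (h : 0 < mapHeight k u w d) :
    ∃ i ≤ d, 0 < height k (some (u.coeff i)) ∨ 0 < height k (some (w.coeff i)) := by
  by_contra hcon
  push Not at hcon
  have h1 : mapHeight k u w d = 0 := by
    unfold mapHeight
    rw [← Nat.bot_eq_zero, Finset.sup_eq_bot_iff]
    intro i hi
    have h2 := hcon i (Nat.lt_succ_iff.1 (Finset.mem_range.1 hi))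
    rw [Nat.bot_eq_zero]
    have h3 : height k (some (u.coeff i)) = 0 := Nat.le_zero.1 h2.1
    have h4 : height k (some (w.coeff i)) = 0 := Nat.le_zero.1 h2.2
    rw [h3, h4]
    rfl
  omega

lemma le_mapHeight (k : Type v) {M : Type u} [Field k] [Field M] [Algebra k M] (u w : M[X])
    (d i : ℕ) (hi : i ≤ d) : height k (some (u.coeff i)) ≤ mapHeight k u w d ∧
      height k (some (w.coeff i)) ≤ mapHeight k u w d := by
  have h1 : max (height k (some (u.coeff i))) (height k (some (w.coeff i))) ≤
      mapHeight k u w d :=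
    Finset.le_sup (f := fun i => max (height k (some (u.coeff i)))
      (height k (some (w.coeff i)))) (Finset.mem_range.mpr (Nat.lt_succ_of_le hi))
  exact ⟨(le_max_left _ _).trans h1, (le_max_right _ _).trans h1⟩

theorem fin_lch2 (d n B : ℕ) (hd : 2 ≤ d) : ∃ B₂ : ℕ, ∀ (k : Type v) (L : Type u) [Field k]
    [CharZero k] [Field L] [Algebra k L] (t : L), Transcendental k t →
    FiniteDimensional (IntermediateField.adjoin k {t}) L →
    Module.finrank (IntermediateField.adjoin k {t}) L ≤ n → ∀ p q : L[X],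
    ∀ (M : Type u) [Field M] [Algebra k M] [Algebra L M] [IsScalarTower k L M]
    [FiniteDimensional L M], Module.finrank L M ≤ B → ∀ u w : M[X], IsCoprime u w →
    u.natDegree = d → w.natDegree < d → u.coeff 0 = 0 →
    Conjugate (p.map (algebraMap L M)) (q.map (algebraMap L M)) u w d →
    0 < mapHeight k u w d →
    mapHeight k u w d ≤ B * height k (some (u.coeff 1 / w.coeff 0)) →
    HasLargeCriticalHeight k p q d B₂ := by
  classical
  set r₀ := 4 * d with hr₀
  obtain ⟨B₁, hB₁⟩ := lch2.{u, v} (Pool.Agent.X186.GM.t_GLG (gloc Pool.Agent.X319.GM.t_CNT)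
    Pool.Agent.X328.FP.t_HQ Pool.Agent.X305.FP.t) Pool.Agent.Y362.CH.t_PD Pool.Agent.Y968.CH.t_HT
    Pool.Agent.Y968.CH.t_KF Pool.Agent.Y195.CH.t_FDA Pool.Agent.Y195.CH.t_HTA d
    (n * (B * (r₀ + 1) ^ r₀)) B hd
  refine ⟨max (B * (r₀ + 1) ^ r₀) B₁, ?_⟩
  intro k L _ _ _ _ t ht hfd hn p q M _ _ _ _ _ hfr u w hco hud hwd hu0 hcj hpos hmul
  have cM : CharZero M := charZero_of_injective_algebraMap (algebraMap k M).injective
  have hu : u ≠ 0 := by
    rintro rfl
    rw [natDegree_zero] at hud
    omega
  have hmax : max u.natDegree w.natDegree = d := by rw [hud]; exact max_eq_left hwd.le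
  have hw : w ≠ 0 := by
    rintro rfl
    have h1 := isCoprime_zero_right.1 hco
    have h2 := natDegree_eq_zero_of_isUnit h1
    omega
  have hW : wr u w ≠ 0 := Pool.Agent.Y706.CH.wr_ne u w hco d (by omega) hmax
  obtain ⟨M', i1, i2, i3, i4, t1, t2, t3, f1, f2, hdeg, hsp⟩ := ext_split k L M
    (u * w * wr u w) r₀ (mul_ne_zero (mul_ne_zero hu hw) hW) (by
      refine natDegree_mul_le.trans ?_
      have h1 : (u * w).natDegree ≤ u.natDegree + w.natDegree := natDegree_mul_le
      have h2 := natDegree_wr_le u w d hud.le hwd.le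
      omega)
  have cM' : CharZero M' := charZero_of_injective_algebraMap (algebraMap k M').injective
  set j := algebraMap M M' with hj
  have hinj : Function.Injective j := j.injective
  have hfr' : Module.finrank L M' ≤ B * (r₀ + 1) ^ r₀ :=
    hdeg.trans (Nat.mul_le_mul_right _ hfr)
  -- the variable
  have ht' : Transcendental k (algebraMap L M' t) := by
    intro h
    exact ht ((isAlgebraic_algebraMap_iff (algebraMap L M').injective).mp h)
  have hte : Module.finrank (IntermediateField.adjoin k {algebraMap L M' t}) M' =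
      Module.finrank (IntermediateField.adjoin k {t}) L * Module.finrank L M' :=
    Pool.Agent.Y555.CH.t_HTE k L M' t
  have htf : FiniteDimensional (IntermediateField.adjoin k {algebraMap L M' t}) M' := by
    apply FiniteDimensional.of_finrank_pos
    rw [hte]
    exact Nat.mul_pos Module.finrank_pos Module.finrank_pos
  have hle : Module.finrank (IntermediateField.adjoin k {algebraMap L M' t}) M' ≤
      n * (B * (r₀ + 1) ^ r₀) := by
    rw [hte]
    exact Nat.mul_le_mul hn hfr'
  have hh : ∀ z : Option M', height k z = Pool.Agent.Y706.CH.hgt k z := by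
    intro z
    cases z <;> rfl
  have hext : ∀ y : M, height k (some (j y)) = height k (some y) * Module.finrank M M' :=
    fun y => Pool.Agent.Y555.CH.t_HTE k M M' y
  have hμ : 0 < Module.finrank M M' := Module.finrank_pos
  have hlam : j (u.coeff 1 / w.coeff 0) = (u.map j).coeff 1 / (w.map j).coeff 0 := by
    rw [map_div₀, coeff_map, coeff_map]
  have hbd : ∀ y : M, height k (some y) ≤ mapHeight k u w d →
      height k (some (j y)) ≤ B * height k (some ((u.map j).coeff 1 / (w.map j).coeff 0)) := by
    intro y hy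
    rw [← hlam, hext, hext, ← mul_assoc]
    exact Nat.mul_le_mul_right _ (hy.trans hmul)
  have hcoef : ∀ i ≤ d, Pool.Agent.Y706.CH.hgt k (some ((u.map j).coeff i)) ≤
        B * Pool.Agent.Y706.CH.hgt k (some ((u.map j).coeff 1 / (w.map j).coeff 0)) ∧
      Pool.Agent.Y706.CH.hgt k (some ((w.map j).coeff i)) ≤
        B * Pool.Agent.Y706.CH.hgt k (some ((u.map j).coeff 1 / (w.map j).coeff 0)) := by
    intro i hi
    rw [← hh, ← hh, ← hh, coeff_map (f := j) (p := u) (n := i), coeff_map (f := j) (p := w) (n := i)]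
    exact ⟨hbd _ (le_mapHeight k u w d i hi).1, hbd _ (le_mapHeight k u w d i hi).2⟩
  have hpos' : ∃ i ≤ d, 0 < height k (some ((u.map j).coeff i)) ∨
      0 < height k (some ((w.map j).coeff i)) := by
    obtain ⟨i, hi, h⟩ := exists_mapHeight k u w d hpos
    refine ⟨i, hi, ?_⟩
    rw [coeff_map, coeff_map, hext, hext]
    exact h.imp (fun h => Nat.mul_pos h hμ) fun h => Nat.mul_pos h hμ
  have hsp' : (u.map j * w.map j * wr (u.map j) (w.map j)).Splits := by
    have h1 := hsp
    rw [Polynomial.map_mul, Polynomial.map_mul, map_wr] at h1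
    exact h1
  have hu' : u.map j ≠ 0 := (Polynomial.map_ne_zero_iff hinj).2 hu
  have hw' : w.map j ≠ 0 := (Polynomial.map_ne_zero_iff hinj).2 hw
  have hW' : wr (u.map j) (w.map j) ≠ 0 := by
    rw [← map_wr]
    exact (Polynomial.map_ne_zero_iff hinj).2 hW
  have hne := mul_ne_zero (mul_ne_zero hu' hw') hW'
  have hs1 : (u.map j).Splits :=
    hsp'.of_dvd hne ((dvd_mul_right _ _).mul_right _)
  have hs2 : (w.map j).Splits :=
    hsp'.of_dvd hne ((dvd_mul_left _ _).mul_right _)
  have hs3 : (wr (u.map j) (w.map j)).Splits := hsp'.of_dvd hne (dvd_mul_left _ _)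
  obtain ⟨c, hc1, hc2⟩ := hB₁ k M' _ ht' htf hle (u.map j) (w.map j)
    ((Polynomial.isCoprime_map j).mpr hco) (by rw [natDegree_map_eq_of_injective hinj]; exact hud)
    (by rw [natDegree_map_eq_of_injective hinj]; exact hwd) (by rw [coeff_map, hu0, map_zero])
    hcoef (by
      obtain ⟨i, hi, h⟩ := hpos'
      rw [hh, hh] at h
      exact ⟨i, hi, h⟩) hs1 hs2 hs3
  have hcan : canonicalHeight k (u.map j) (w.map j) d (some c) =
      Filter.limsup (fun m => (Pool.Agent.Y706.CH.hgt k
        ((ratP1 (u.map j) (w.map j) d)^[m] (some c)) : ENNReal) / (d : ENNReal) ^ m)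
          Filter.atTop := by
    have e : mapP1 (u.map j) (w.map j) d = ratP1 (u.map j) (w.map j) d := by
      funext z
      cases z <;> rfl
    unfold canonicalHeight
    rw [e]
    simp only [hh]
  have hB12 : (B₁ : ENNReal) ≤ ((max (B * (r₀ + 1) ^ r₀) B₁ : ℕ) : ENNReal) := by
    exact_mod_cast le_max_right _ _
  refine lch_of k L M M' _ (hfr'.trans (le_max_left _ _)) d p q u w hcj hco hmax hs3 c hc1 hpos' ?_
  intro i
  rw [← hj, hcan, hh, hh]
  exact ⟨(hc2 i).1.trans (mul_le_mul_left hB12 _), (hc2 i).2.trans (mul_le_mul_left hB12 _)⟩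

end Pool.Agent.X328.GM
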